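import Pool.Agent.Helper9.BA.CalcC2

/-! Project BA, module B7: powers of compact families, the families `sealC`. -/

set_option autoImplicit false

namespace Pool.Agent.Helper59.BAaux

open Pool.Agent.Helper33.HM Pool.Agent.Helper94.BA

universe u

variable {B : Type u} [CompleteBooleanAlgebra B]

theorem isCF_PC' (y : ℕ → B) : IsCF (PC y) := by
  refine ⟨?_, ?_⟩
  · rw [eq_top_iff]
    refine le_iInf fun n => le_iInf fun hn => ?_
    exact absurd hn (Finset.notMem_empty n)
  · intro s t hst
    refine le_iInf fun n => le_iInf fun hn => ?_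
    exact iInf₂_le (f := fun n (_ : n ∈ t) => y n) n (hst hn)

theorem PC_bot {s : Finset ℕ} (hs : s ≠ ∅) : PC (⊥ : ℕ → B) s = ⊥ := by
  obtain ⟨n, hn⟩ := Finset.nonempty_iff_ne_empty.2 hs
  rw [eq_bot_iff]
  exact iInf₂_le (f := fun n (_ : n ∈ s) => (⊥ : ℕ → B) n) n hn

theorem joinC_bot (D : Finset ℕ → B) : joinC (PC ⊥) D = D := by
  funext s
  apply le_antisymm
  · refine iSup₂_le fun t _ => ?_
    by_cases ht : t = ∅
    · subst ht
      rw [Finset.sdiff_empty]
      exact inf_le_right
    · rw [PC_bot ht, bot_inf_eq]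
      exact bot_le
  · refine le_trans ?_ (le_iSup₂ (f := fun t (_ : t ⊆ s) => PC (⊥ : ℕ → B) t ⊓ D (s \ t)) ∅
      (Finset.empty_subset s))
    rw [(isCF_PC' (⊥ : ℕ → B)).empty, Finset.sdiff_empty, top_inf_eq]

end Pool.Agent.Helper59.BAaux

namespace Pool.Agent.Helper94.BA

open Pool.Agent.Helper33.HM Pool.Agent.Helper59.BAaux

universe u

section

variable {B : Type u} [CompleteBooleanAlgebra B]

theorem isCF_powC {C : Finset ℕ → B} (hC : IsCF C) (n : ℕ) : IsCF (powC C n) := by
  induction n with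
  | zero => exact isCF_PC' _
  | succ n ih => exact isCF_joinC hC ih

theorem powC_mono {C D : Finset ℕ → B} (hC : IsCF C) (hD : IsCF D) (h : C ≤ D) {m n : ℕ}
    (hmn : m ≤ n) : powC C m ≤ powC D n := by
  have h1 : powC C m ≤ powC D m := by
    clear hmn
    induction m with
    | zero => exact le_rfl
    | succ m ih => exact joinC_mono h ih
  refine h1.trans ?_
  induction n, hmn using Nat.le_induction with
  | base => exact le_rfl
  | succ n _ ih => exact ih.trans (le_joinC_right hD _)

theorem joinC_powC (C : Finset ℕ → B) (m n : ℕ) :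
    joinC (powC C m) (powC C n) = powC C (m + n) := by
  induction m with
  | zero =>
    rw [Nat.zero_add]
    exact joinC_bot _
  | succ m ih =>
    have h : m + 1 + n = (m + n) + 1 := by omega
    rw [h]
    change joinC (joinC C (powC C m)) (powC C n) = joinC C (powC C (m + n))
    rw [joinC_assoc, ih]

theorem isCF_sealC {D : ℕ → Finset ℕ → B} (hD : ∀ n, IsCF (D n)) (h : ℕ → ℕ → B) (m : ℕ) :
    IsCF (sealC h D m) := by
  refine ⟨?_, ?_⟩
  · rw [eq_top_iff]
    refine le_iInf fun n => le_iInf fun _ => le_iInf fun k => ?_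
    rw [Finset.filter_empty, (hD n).empty, himp_top]
  · intro s t hst
    refine iInf_mono fun n => iInf_mono fun _ => iInf_mono fun k => ?_
    exact himp_le_himp_left ((hD n).anti _ _ (Finset.filter_subset_filter _ hst))

theorem sealC_mono (h : ℕ → ℕ → B) (D : ℕ → Finset ℕ → B) {m n : ℕ} (hmn : m ≤ n) :
    sealC h D m ≤ sealC h D n := by
  intro s
  refine le_iInf fun i => le_iInf fun hi => ?_
  exact iInf₂_le (f := fun i (_ : m ≤ i) => ⨅ k : ℕ, (h i k)ᶜ ⇨ D i (s.filter (· ≤ k))) i
    (hmn.trans hi)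

end

end Pool.Agent.Helper94.BA
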